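import Pool.Agent.Q5.MZ.Stm3

/-!
# Job MZ-FM: Minkowski, it is enough to consider the primes of small norm
-/

set_option autoImplicit false

namespace Pool.Agent.Q154.MZ

open NumberField IsDedekindDomain Module
open Pool.Agent.Q92.AR (Dv prin)
open Pool.Agent.Q5.MZ

/-- principal away from `2` -/
def Hp {N : Type} [Field N] [NumberField N] (D : Dv N) : Prop :=
  ∃ x : Nˣ, ∀ v : HeightOneSpectrum (𝓞 N), (2 : 𝓞 N) ∉ v.asIdeal → D v = prin x v

section
variable {N : Type} [Field N] [NumberField N]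

theorem Hp_zero : Hp (0 : Dv N) :=
  ⟨1, fun v _ => by rw [Pool.Agent.Q92.AR.prin_one]⟩

theorem Hp_add {D D' : Dv N} (h : Hp D) (h' : Hp D') : Hp (D + D') := by
  obtain ⟨x, hx⟩ := h
  obtain ⟨y, hy⟩ := h'
  refine ⟨x * y, fun v hv => ?_⟩
  rw [Pool.Agent.Q92.AR.prin_mul, Finsupp.add_apply, Finsupp.add_apply, hx v hv, hy v hv]

theorem Hp_zsmul {D : Dv N} (h : Hp D) (a : ℤ) : Hp (a • D) := by
  obtain ⟨x, hx⟩ := h
  refine ⟨x ^ a, fun v hv => ?_⟩
  have h1 : prin (x ^ a) = a • prin x := by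
    have := (Pool.Agent.Q92.AR.prinHom (F := N)).map_zsmul a (Additive.ofMul x)
    exact this
  rw [h1, Finsupp.smul_apply, Finsupp.smul_apply, hx v hv]

/-- an ideal whose prime divisors are principal away from `2` is principal away from `2` -/
theorem ideal_prin (J : Ideal (𝓞 N)) : J ≠ 0 →
    (∀ v : HeightOneSpectrum (𝓞 N), v.asIdeal ∣ J → (2 : 𝓞 N) ∉ v.asIdeal → PrinV v) →
    ∃ x : Nˣ, ∀ v : HeightOneSpectrum (𝓞 N), (2 : 𝓞 N) ∉ v.asIdeal →
      FractionalIdeal.count N v (J : FractionalIdeal (nonZeroDivisors (𝓞 N)) N) = prin x v := by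
  classical
  refine UniqueFactorizationMonoid.induction_on_prime
    (P := fun J : Ideal (𝓞 N) => J ≠ 0 →
      (∀ v : HeightOneSpectrum (𝓞 N), v.asIdeal ∣ J → (2 : 𝓞 N) ∉ v.asIdeal → PrinV v) →
      ∃ x : Nˣ, ∀ v : HeightOneSpectrum (𝓞 N), (2 : 𝓞 N) ∉ v.asIdeal →
        FractionalIdeal.count N v (J : FractionalIdeal (nonZeroDivisors (𝓞 N)) N) = prin x v)
    J ?_ ?_ ?_
  · intro h0
    exact absurd rfl h0
  · intro I hI _ _
    refine ⟨1, fun v _ => ?_⟩
    rw [Ideal.isUnit_iff.1 hI, Pool.Agent.Q92.AR.prin_one]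
    simp only [FractionalIdeal.coeIdeal_top]
    exact FractionalIdeal.count_one N v
  · intro a p ha hp ih hpa hdiv
    obtain ⟨x, hx⟩ := ih ha fun v hv => hdiv v (hv.mul_left p)
    have hp0 : p ≠ 0 := hp.ne_zero
    let w : HeightOneSpectrum (𝓞 N) := ⟨p, Ideal.isPrime_of_prime hp, hp0⟩
    have hcount : ∀ v : HeightOneSpectrum (𝓞 N),
        FractionalIdeal.count N v ((p * a : Ideal (𝓞 N)) :
          FractionalIdeal (nonZeroDivisors (𝓞 N)) N) =
        (if w = v then 1 else 0) +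
          FractionalIdeal.count N v (a : FractionalIdeal (nonZeroDivisors (𝓞 N)) N) := by
      intro v
      rw [FractionalIdeal.coeIdeal_mul, FractionalIdeal.count_mul]
      · congr 1
        exact FractionalIdeal.count_maximal N v w
      · exact FractionalIdeal.coeIdeal_ne_zero.2 hp0
      · exact FractionalIdeal.coeIdeal_ne_zero.2 ha
    by_cases h2 : (2 : 𝓞 N) ∈ w.asIdeal
    · refine ⟨x, fun v hv => ?_⟩
      have hne : w ≠ v := by
        rintro rfl
        exact hv h2
      rw [hcount v, if_neg hne, zero_add]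
      exact hx v hv
    · obtain ⟨z, hz1, hz2⟩ := hdiv w (Dvd.intro a rfl) h2
      refine ⟨z * x, fun v hv => ?_⟩
      rw [hcount v, Pool.Agent.Q92.AR.prin_mul, Finsupp.add_apply, hx v hv]
      congr 1
      by_cases hwv : w = v
      · rw [if_pos hwv, ← hwv]
        exact hz1.symm
      · rw [if_neg hwv]
        exact (hz2 v (fun h => hwv h.symm) hv).symm

theorem noComplex (h : TotReal N) : InfinitePlace.nrComplexPlaces N = 0 := by
  classical
  unfold InfinitePlace.nrComplexPlaces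
  rw [Fintype.card_eq_zero_iff]
  refine ⟨fun w => ?_⟩
  obtain ⟨w, hw⟩ := w
  have hw2 : ¬ w.IsReal := InfinitePlace.not_isReal_iff_isComplex.2 hw
  apply hw2
  refine ⟨w.embedding, ?_, InfinitePlace.mk_embedding w⟩
  rw [ComplexEmbedding.isReal_iff]
  ext x
  exact h w.embedding x

end

theorem fm : S_FM := by
  classical
  intro N _ _ B hreal hbound hsmall
  have hsingle : ∀ v : HeightOneSpectrum (𝓞 N), Hp (Finsupp.single v 1 : Dv N) := by
    intro v
    have hv0 : v.asIdeal ∈ nonZeroDivisors (Ideal (𝓞 N)) := mem_nonZeroDivisors_of_ne_zero v.ne_bot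
    obtain ⟨I, hI, hnorm⟩ := exists_ideal_in_class_of_norm_le
      (K := N) (ClassGroup.mk0 ⟨v.asIdeal, hv0⟩)
    rw [noComplex hreal, pow_zero, one_mul] at hnorm
    have hI0 : (I : Ideal (𝓞 N)) ≠ 0 := nonZeroDivisors.coe_ne_zero I
    have hle : Ideal.absNorm (I : Ideal (𝓞 N)) ≤ B := by
      have h1 : ((Ideal.absNorm (I : Ideal (𝓞 N)) : ℕ) : ℝ) < (B : ℝ) + 1 :=
        lt_of_le_of_lt hnorm hbound
      have h2 : Ideal.absNorm (I : Ideal (𝓞 N)) < B + 1 := by exact_mod_cast h1
      omega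
    have hIpos : 0 < Ideal.absNorm (I : Ideal (𝓞 N)) := by
      rw [Nat.pos_iff_ne_zero, Ne, Ideal.absNorm_eq_zero_iff]
      exact hI0
    obtain ⟨z, hz⟩ := ideal_prin (I : Ideal (𝓞 N)) hI0 (fun w hw h2 => by
      refine hsmall w h2 (le_trans (Nat.le_of_dvd hIpos ?_) hle)
      exact Ideal.absNorm_dvd_absNorm_of_le (Ideal.le_of_dvd hw))
    obtain ⟨x, y, hx0, hy0, hxy⟩ := ClassGroup.mk0_eq_mk0_iff.1 hI
    have hxN : (algebraMap (𝓞 N) N x) ≠ 0 := by
      intro h
      exact hx0 ((FaithfulSMul.algebraMap_injective (𝓞 N) N) (by rw [h, map_zero]))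
    have hyN : (algebraMap (𝓞 N) N y) ≠ 0 := by
      intro h
      exact hy0 ((FaithfulSMul.algebraMap_injective (𝓞 N) N) (by rw [h, map_zero]))
    have hfrac : FractionalIdeal.spanSingleton (nonZeroDivisors (𝓞 N)) (algebraMap (𝓞 N) N x) *
        ((I : Ideal (𝓞 N)) : FractionalIdeal (nonZeroDivisors (𝓞 N)) N) =
        FractionalIdeal.spanSingleton (nonZeroDivisors (𝓞 N)) (algebraMap (𝓞 N) N y) *
        (v.asIdeal : FractionalIdeal (nonZeroDivisors (𝓞 N)) N) := by
      rw [← FractionalIdeal.coeIdeal_span_singleton, ← FractionalIdeal.coeIdeal_span_singleton,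
        ← FractionalIdeal.coeIdeal_mul, ← FractionalIdeal.coeIdeal_mul]
      rw [hxy]
    refine ⟨Units.mk0 _ hxN / Units.mk0 _ hyN * z, fun w hw => ?_⟩
    have hc := congrArg (FractionalIdeal.count N w) hfrac
    rw [FractionalIdeal.count_mul N w (FractionalIdeal.spanSingleton_ne_zero_iff.2 hxN)
      (FractionalIdeal.coeIdeal_ne_zero.2 hI0),
      FractionalIdeal.count_mul N w (FractionalIdeal.spanSingleton_ne_zero_iff.2 hyN)
      (FractionalIdeal.coeIdeal_ne_zero.2 v.ne_bot), hz w hw,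
      FractionalIdeal.count_maximal N w v] at hc
    rw [Pool.Agent.Q92.AR.prin_mul, Pool.Agent.Q92.AR.prin_div, Finsupp.add_apply,
      Finsupp.sub_apply, Pool.Agent.Q92.AR.prin_apply (Units.mk0 _ hxN),
      Pool.Agent.Q92.AR.prin_apply (Units.mk0 _ hyN), Units.val_mk0, Units.val_mk0,
      Finsupp.single_apply]
    linarith
  intro D
  have hD : Hp D := by
    induction D using Finsupp.induction_linear with
    | zero => exact Hp_zero
    | add f g hf hg => exact Hp_add hf hg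
    | single v a =>
      have h1 : (Finsupp.single v a : Dv N) = a • (Finsupp.single v 1 : Dv N) := by
        rw [Finsupp.smul_single, smul_eq_mul, mul_one]
      rw [h1]
      exact Hp_zsmul (hsingle v) a
  exact hD

end Pool.Agent.Q154.MZ
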